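import Pool.Agent.Helper13.AG3.Goals

/-!
# PROJECT AG++ (MP_0f21ab_al), packet CLS (copy of Helper23.AG2.CLS): the class is closed under images and subgroups
-/

set_option autoImplicit false

namespace Pool.Agent.Helper32.AG3

open Pool.Agent.Helper71.AG2 (AbP AbpStmt)
open Pool.Agent.Helper13.AG3

universe u

theorem cls (hA : AbpStmt.{u}) (hT : TopStmt.{u}) : ClsStmt.{u} := by
  constructor
  · intro G G' _ _ _ π hπ hG
    obtain ⟨T, _, f, hf, hsol, hab, htop⟩ := hG
    have hN : (f.ker.map π).Normal := Subgroup.Normal.map inferInstance π hπ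
    have hker : (QuotientGroup.mk' (f.ker.map π)).ker = f.ker.map π := QuotientGroup.ker_mk' _
    refine ⟨G' ⧸ f.ker.map π, inferInstance, QuotientGroup.mk' (f.ker.map π),
      QuotientGroup.mk'_surjective _, ?_, ?_, ?_⟩
    · rw [hker]
      have := hsol
      exact Group.isSolvable_of_surjective (MonoidHom.subgroupMap_surjective π f.ker)
    · intro p hp hpd
      rw [hker] at hpd
      have h1 : Nat.card (f.ker.map π) ∣ Nat.card f.ker :=
        Subgroup.card_dvd_of_surjective (π.subgroupMap f.ker)
          (MonoidHom.subgroupMap_surjective π f.ker)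
      exact hA.1 G G' p π hp hπ (hab p hp (hpd.trans h1))
    · have hle : ∀ x ∈ f.ker, ((QuotientGroup.mk' (f.ker.map π)).comp π) x = 1 := by
        intro x hx
        rw [MonoidHom.comp_apply]
        exact (QuotientGroup.eq_one_iff _).2 ⟨x, hx, rfl⟩
      let ψ : T →* G' ⧸ f.ker.map π :=
        (QuotientGroup.lift f.ker ((QuotientGroup.mk' (f.ker.map π)).comp π) hle).comp
          (QuotientGroup.quotientKerEquivOfSurjective f hf).symm.toMonoidHom
      have hψ : Function.Surjective ψ := by
        intro y
        obtain ⟨g', rfl⟩ := QuotientGroup.mk'_surjective _ y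
        obtain ⟨g, rfl⟩ := hπ g'
        refine ⟨f g, ?_⟩
        have h1 : (QuotientGroup.quotientKerEquivOfSurjective f hf).symm (f g) =
            (QuotientGroup.mk g : G ⧸ f.ker) := by
          rw [MulEquiv.symm_apply_eq]
          rfl
        change (QuotientGroup.lift f.ker ((QuotientGroup.mk' (f.ker.map π)).comp π) hle)
          ((QuotientGroup.quotientKerEquivOfSurjective f hf).symm (f g)) = _
        rw [h1]
        rfl
      exact hT.1 T _ ψ hψ htop
  · intro G G' _ _ _ j hj hG
    obtain ⟨T, _, f, hf, hsol, hab, htop⟩ := hG
    have hmem : ∀ x : ((f.comp j).rangeRestrict).ker, j (x : G) ∈ f.ker := by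
      intro x
      have h1 : (f.comp j).rangeRestrict (x : G) = 1 := x.2
      have h2 : f (j (x : G)) = 1 := congrArg Subtype.val h1
      exact h2
    let r : ((f.comp j).rangeRestrict).ker →* f.ker :=
      { toFun := fun x => ⟨j (x : G), hmem x⟩
        map_one' := by
          apply Subtype.ext
          simp
        map_mul' := by
          intro x y
          apply Subtype.ext
          simp }
    have hr : Function.Injective r := by
      intro x y hxy
      apply Subtype.ext
      apply hj
      exact congrArg Subtype.val hxy
    refine ⟨(f.comp j).range, inferInstance, (f.comp j).rangeRestrict,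
      MonoidHom.rangeRestrict_surjective _, ?_, ?_, ?_⟩
    · have := hsol
      exact Group.isSolvable_of_isSolvable_injective hr
    · intro p hp hpd
      exact hA.2 G G' p j hj (hab p hp (hpd.trans (Subgroup.card_dvd_of_injective r hr)))
    · exact hT.2 _ T (f.comp j).range.subtype (Subgroup.subtype_injective _) htop

end Pool.Agent.Helper32.AG3
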