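import Pool.Agent.Helper13.AG3.Goals

set_option autoImplicit false

namespace Pool.Agent.Helper32.AG3

open Pool.Agent.Helper32.AG
open Pool.Agent.Helper71.AG2 (AbP)
open Pool.Agent.Helper13.AG3 (Top Cls TopStmt ClsStmt BaseStmt FinStmt)

universe u

open scoped commutatorElement

theorem final (hTop : TopStmt.{u}) (hCls : ClsStmt.{u})
    (hEle : Helper71.AG2.EleStmt.{u}) (hPnh : Helper71.AG2.PnhStmt.{u}) (hCop : CopStmt.{u})
    (hPct : PctStmt.{u}) (hFrm : FrmStmt.{u}) (hOrb : OrbStmt.{u})
    (hCnv : Helper71.AG2.CnvStmt.{u})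
    (hLin : Helper13.AG3.LinStmt.{u}) (hStp : Helper71.AG2.StpStmt.{u})
    (hBase : BaseStmt.{u}) : FinStmt.{u} := by
  suffices H : ∀ (n : ℕ) (G : Type u) [Group G] [Finite G], Nat.card G = n → Cls G →
      3 * Nat.card G ≤ 3 ^ k G from fun G _ _ hc => H _ G rfl hc
  intro n
  induction n using Nat.strong_induction_on with
  | _ n ih =>
  intro G _ _ hn hcls
  obtain ⟨T, iT, f, hf, hsolN, habN, hTT⟩ := hcls
  by_cases hN : f.ker = ⊥
  · exact hBase G (hTop.2 G T f ((MonoidHom.ker_eq_bot_iff f).mp hN) hTT)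
  · obtain ⟨p, hp, V, hV, U, iU, mU, fU, nU, ρ, φ, hVN, hcomm, hpg, hφ1, hφ, hker, hirr⟩ :=
      hCnv G f.ker inferInstance hN hsolN
    have hprime : p.Prime := hp.out
    -- `V` is nontrivial
    have hVcard : 1 < Nat.card V := by
      have : Nontrivial V := φ.nontrivial
      exact Finite.one_lt_card
    have hpN : p ∣ Nat.card f.ker := by
      obtain ⟨j, hj⟩ := hpg.exists_card_eq
      have hj0 : j ≠ 0 := by
        rintro rfl
        rw [hj] at hVcard
        simp at hVcard
      exact (hj ▸ dvd_pow_self p hj0).trans (Subgroup.card_dvd_of_le hVN)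
    have hab : AbP p G := habN p hprime hpN
    have hcG : Cls G := ⟨T, iT, f, hf, hsolN, habN, hTT⟩
    have hGV : Nat.card (G ⧸ V) < Nat.card G := by
      have h1 := Subgroup.card_eq_card_quotient_mul_card_subgroup V
      have h2 : 0 < Nat.card (G ⧸ V) := Nat.card_pos
      nlinarith
    -- the quotient
    have hcQ : Cls (G ⧸ V) := hCls.1 G (G ⧸ V) (QuotientGroup.mk' V)
      (QuotientGroup.mk'_surjective V) hcG
    -- the induction hypothesis for the stabilizers
    have hst : ∀ v : V, 3 * Nat.card (Kst V (v : G)) ≤ 3 ^ k (Kst V (v : G)) := by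
      intro v
      have h1 : Nat.card (Kst V (v : G)) ≤ Nat.card (G ⧸ V) := Subgroup.card_le_card_group _
      exact ih _ (by omega) (Kst V (v : G)) rfl
        (hCls.2 _ _ (Kst V (v : G)).subtype (Subgroup.subtype_injective _) hcQ)
    -- commuting pairs
    have hpairs : ∀ x y : G, ⁅x, y⁆ ∈ V →
        Nat.card {q : V × V // Commute (x * (q.1 : G)) (y * (q.2 : G))} =
          Nat.card V * Nat.card (Cc V x y) := by
      intro x y hxy
      have h1 := hEle G p hprime V hpg hab hcomm x y hxy
      have h2 := hPct G V hcomm x y h1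
      obtain ⟨m, hm, hm0, hmx⟩ := hPnh G p hprime hab V hpg x
      obtain ⟨m', hm', hm0', hmy⟩ := hPnh G p hprime hab V hpg y
      have h3 := hCop G p hprime V hpg hcomm x y m m' hxy hm hm' hm0 hm0' hmx hmy
      have h4 : 0 < Nat.card (Wc V x y) := Nat.card_pos
      refine Nat.eq_of_mul_eq_mul_right h4 ?_
      rw [h2]
      calc Nat.card V ^ 2 = Nat.card V * Nat.card V := by ring
        _ = Nat.card V * (Nat.card (Wc V x y) * Nat.card (Cc V x y)) := by rw [← h3]
        _ = Nat.card V * Nat.card (Cc V x y) * Nat.card (Wc V x y) := by ring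
    have hform := hFrm G V hcomm hpairs
    obtain ⟨ho1, ho2⟩ := hOrb G V hcomm
    have hT := ho2 hform
    -- the linear group
    have hfinH : Finite ρ.range := Finite.of_surjective _ ρ.rangeRestrict_surjective
    have hcH : Cls ρ.range := hCls.1 G ρ.range ρ.rangeRestrict ρ.rangeRestrict_surjective hcG
    have hpH : ¬ p ∣ Nat.card ρ.range := by
      intro hd
      obtain ⟨⟨h, hh⟩, hord⟩ := exists_prime_orderOf_dvd_card' p hd
      obtain ⟨g, rfl⟩ := hh
      obtain ⟨m, hm, -, hmg⟩ := hPnh G p hprime hab V hpg g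
      apply hm
      rw [← hord]
      apply orderOf_dvd_of_pow_eq_one
      apply Subtype.ext
      change (ρ g) ^ m = 1
      rw [← map_pow]
      ext u
      obtain ⟨v, rfl⟩ := φ.surjective u
      rw [← hφ (g ^ m) v]
      change φ _ = φ v
      congr 1
      apply Subtype.ext
      change g ^ m * (v : G) * (g ^ m)⁻¹ = v
      rw [hmg v v.2, mul_assoc, mul_inv_cancel, mul_one]
    exact hStp p G V U ρ φ hcomm hφ1 hφ hker ho1 hT hst
      (hLin p U ρ.range hirr hcH hpH)

end Pool.Agent.Helper32.AG3
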