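import Pool.Agent.Helper32.AG.Hyp
import Pool.Agent.Helper13.AG3.Goals

set_option autoImplicit false

namespace Pool.Agent.Helper32.AG3

open Pool.Agent.Helper32.AG
open Pool.Agent.Helper71.AG2 (AbP)
open Pool.Agent.Helper13.AG3 (Top Cls ClsStmt FinStmt)

universe u

open scoped commutatorElement

theorem of_hyper (hCls : ClsStmt.{u}) (main : FinStmt.{u}) (n : ℕ) :
    ∀ (G : Type u) [Group G] [Finite G], Cls (G ⧸ Subgroup.upperCentralSeries G n) →
      3 * Nat.card G ≤ 3 ^ k G := by
  induction n with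
  | zero =>
    intro G _ _ hc
    have h0 : ∀ x ∈ Subgroup.upperCentralSeries G 0, MonoidHom.id G x = 1 := by
      intro x hx
      rw [Subgroup.upperCentralSeries_zero, Subgroup.mem_bot] at hx
      rw [hx, map_one]
    have hsur : Function.Surjective
        (QuotientGroup.lift (Subgroup.upperCentralSeries G 0) (MonoidHom.id G) h0) := fun x =>
      ⟨(x : G ⧸ Subgroup.upperCentralSeries G 0), rfl⟩
    exact main G (hCls.1 _ _ _ hsur hc)
  | succ n ih =>
    intro G _ _ hc
    have hle : Subgroup.upperCentralSeries G (n + 1) ≤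
        (Subgroup.upperCentralSeries (G ⧸ Subgroup.center G) n).comap
          (QuotientGroup.mk' (Subgroup.center G)) := by
      rw [Subgroup.comap_upperCentralSeries_quotient_center]
    have hsur : Function.Surjective (QuotientGroup.map (Subgroup.upperCentralSeries G (n + 1))
        (Subgroup.upperCentralSeries (G ⧸ Subgroup.center G) n)
        (QuotientGroup.mk' (Subgroup.center G)) hle) := by
      intro y
      obtain ⟨z, rfl⟩ := QuotientGroup.mk_surjective y
      obtain ⟨x, rfl⟩ := QuotientGroup.mk_surjective z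
      exact ⟨(x : G ⧸ Subgroup.upperCentralSeries G (n + 1)), rfl⟩
    exact central_step (ih (G ⧸ Subgroup.center G) (hCls.1 _ _ _ hsur hc))

/-- The form of the result. -/
theorem cls_of {Q : Type u} [Group Q] [Finite Q] (N : Subgroup Q) [N.Normal]
    (hs : Group.IsSolvable N)
    (hS : ∀ p : ℕ, p.Prime → p ∣ Nat.card N → ∀ P : Sylow p Q, ∀ x ∈ P, ∀ y ∈ P, x * y = y * x)
    (hT : Helper46.KG.IsSupersolvable (Q ⧸ N) ∨ ∃ (M : Subgroup (Q ⧸ N)) (_ : M.Normal),
      (∀ x ∈ M, ∀ y ∈ M, x * y = y * x) ∧ Group.IsNilpotent ((Q ⧸ N) ⧸ M)) : Cls Q := by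
  have hk : (QuotientGroup.mk' N).ker = N := QuotientGroup.ker_mk' N
  refine ⟨Q ⧸ N, inferInstance, QuotientGroup.mk' N, QuotientGroup.mk'_surjective N, ?_, ?_, ?_⟩
  · rw [hk]; exact hs
  · intro p hp hd P hP x hx y hy
    rw [hk] at hd
    obtain ⟨S, hS'⟩ := hP.exists_le_sylow
    exact hS p hp hd S x (hS' hx) y (hS' hy)
  · rcases hT with h | ⟨M, hM, hc, hn⟩
    · exact Or.inl h
    · refine Or.inr ⟨(Q ⧸ N) ⧸ M, inferInstance, QuotientGroup.mk' M, hn, ?_⟩
      rw [QuotientGroup.ker_mk']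
      exact hc

end Pool.Agent.Helper32.AG3
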