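import Pool.Agent.Helper32.AG.Cond
import Pool.Agent.Helper32.AG3.Final
import Pool.Agent.Helper32.AG3.Hyp
import Pool.Agent.Helper32.AG3.CLS
import Pool.Agent.Helper32.AG3.LIN
import Pool.Agent.Helper12.AG2.PNH
import Pool.Agent.Helper14.AG3.TOP
import Pool.Agent.Helper2.AG2.ABP
import Pool.Agent.Helper34.AG2.STP
import Pool.Agent.Helper43.AG3.SOL
import Pool.Agent.Helper45.AG2.CORE
import Pool.Agent.Helper46.AG2.TWB
import Pool.Agent.Helper57.AG2.ELE
import Pool.Agent.Helper71.AG2.N2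
import Pool.Agent.Helper89.AG2.CNV
import Pool.Agent.Helper13.AG3.MAX
import Pool.Agent.Helper13.AG3.NIL
import Pool.Agent.Helper42.AG3.BASE

set_option autoImplicit false

namespace Pool.Agent.Helper32.AG3

open Pool.Agent.Helper32.AG
open Pool.Agent.Helper13.AG3 (Cls ClsStmt FinStmt)

universe u

theorem clsS : ClsStmt.{u} := cls Helper2.AG2.abp Helper14.AG3.top

theorem main : FinStmt.{u} := by
  have hGrp : GrpStmt.{u} := Helper68.AG.grp
  have hLev : LevStmt.{u} := Helper16.AG.lev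
  have hTwb : Helper71.AG2.TwbStmt.{u} :=
    Helper46.AG2.twb hGrp Helper78.AG.n4 Helper12.AG.twa hLev
  have hLin : Helper13.AG3.LinStmt.{u} :=
    lin (Helper13.AG3.max Helper45.AG2.core Helper43.AG3.sol) Helper66.AG.dec hLev
      (Helper13.AG.one hGrp) hTwb
  exact final Helper14.AG3.top clsS (Helper57.AG2.ele Helper45.AG2.core Helper2.AG2.abp)
    Helper12.AG2.pnh Helper17.AG.cop Helper70.AG.PCT Helper45.AG.frm Helper59.AG.orb
    Helper89.AG2.cnv hLin (Helper34.AG2.stp Helper36.AG.n1 Helper71.AG2.n2 Helper80.AG.n3)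
    (Helper42.AG3.base hGrp Helper13.AG3.nilStmt)

end Pool.Agent.Helper32.AG3
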